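import Mathlib

set_option autoImplicit false

/-!
Ten points on the 2-sphere with no monotone motion in the 4-sphere.  The pairs whose distance is
the same at both ends keep their distance along a monotone motion; this forces the Gram matrix of
six of the points to pass through the identity matrix of size six.
-/

open scoped InnerProductSpace

namespace Pool.Agent.H184Z.Sph

abbrev E3 := EuclideanSpace ℝ (Fin 3)
abbrev E5 := EuclideanSpace ℝ (Fin 5)

/-- first configuration -/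
noncomputable def pp : Fin 10 → E3 :=
  ![!₂[1, 0, 0], !₂[0, 1, 0], !₂[0, 0, 1], !₂[1, 0, 0], !₂[0, 1, 0], !₂[0, 0, 1],
    !₂[3/5, 4/5, 0], !₂[4/5, -3/5, 0], !₂[3/5, 0, 4/5], !₂[4/5, 0, -3/5]]

/-- second configuration -/
noncomputable def qq : Fin 10 → E3 :=
  ![!₂[1, 0, 0], !₂[0, 1, 0], !₂[0, 0, 1], !₂[-1, 0, 0], !₂[0, -1, 0], !₂[0, 0, -1],
    !₂[3/5, 4/5, 0], !₂[-4/5, 3/5, 0], !₂[3/5, 0, 4/5], !₂[-4/5, 0, 3/5]]

lemma inner3 (a b : E3) : ⟪a, b⟫_ℝ = a 0 * b 0 + a 1 * b 1 + a 2 * b 2 := by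
  simp [PiLp.inner_apply, Fin.sum_univ_three]
  ring

lemma norm_of_inner {V : Type*} [NormedAddCommGroup V] [InnerProductSpace ℝ V] (a : V)
    (h : ⟪a, a⟫_ℝ = 1) : ‖a‖ = 1 := by
  rw [real_inner_self_eq_norm_sq] at h
  have h0 := norm_nonneg a
  nlinarith

lemma norm_pp (i : Fin 10) : ‖pp i‖ = 1 := by
  apply norm_of_inner
  rw [inner3]
  fin_cases i <;> simp [pp] <;> norm_num

lemma norm_qq (i : Fin 10) : ‖qq i‖ = 1 := by
  apply norm_of_inner
  rw [inner3]
  fin_cases i <;> simp [qq] <;> norm_num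

lemma exists_iso : Nonempty (E3 →ₗᵢ[ℝ] E5) := by
  let b := (EuclideanSpace.basisFun (Fin 3) ℝ)
  let w : Fin 3 → E5 := fun i => EuclideanSpace.basisFun (Fin 5) ℝ (Fin.castLE (by norm_num) i)
  have hw : Orthonormal ℝ w :=
    (EuclideanSpace.basisFun (Fin 5) ℝ).orthonormal.comp _ (Fin.castLE_injective _)
  let f : E3 →ₗ[ℝ] E5 := b.toBasis.constr ℝ w
  refine ⟨f.isometryOfOrthonormal (v := b.toBasis) (by simpa using b.orthonormal) ?_⟩
  have : (f ∘ b.toBasis) = w := by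
    funext i
    simp [f]
  rw [this]
  exact hw

lemma inner_of_dist {V : Type*} [NormedAddCommGroup V] [InnerProductSpace ℝ V] (a b : V)
    (ha : ‖a‖ = 1) (hb : ‖b‖ = 1) : ⟪a, b⟫_ℝ = 1 - dist a b ^ 2 / 2 := by
  rw [dist_eq_norm, @norm_sub_sq_real, ha, hb]
  ring

lemma comb_eq {V : Type*} [NormedAddCommGroup V] [InnerProductSpace ℝ V] (y a b : V) (s t : ℝ)
    (hy : ‖y‖ = 1) (ha : ‖a‖ = 1) (hb : ‖b‖ = 1) (hab : ⟪a, b⟫_ℝ = 0)
    (hya : ⟪y, a⟫_ℝ = s) (hyb : ⟪y, b⟫_ℝ = t) (hst : s ^ 2 + t ^ 2 = 1) :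
    y = s • a + t • b := by
  have h1 : ⟪y - (s • a + t • b), y - (s • a + t • b)⟫_ℝ = 0 := by
    have hyy : ⟪y, y⟫_ℝ = 1 := by rw [real_inner_self_eq_norm_sq, hy]; norm_num
    have haa : ⟪a, a⟫_ℝ = 1 := by rw [real_inner_self_eq_norm_sq, ha]; norm_num
    have hbb : ⟪b, b⟫_ℝ = 1 := by rw [real_inner_self_eq_norm_sq, hb]; norm_num
    have hba : ⟪b, a⟫_ℝ = 0 := by rw [real_inner_comm]; exact hab
    have hay : ⟪a, y⟫_ℝ = s := by rw [real_inner_comm]; exact hya
    have hby : ⟪b, y⟫_ℝ = t := by rw [real_inner_comm]; exact hyb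
    simp only [inner_sub_left, inner_sub_right, inner_add_left, inner_add_right,
      real_inner_smul_left, real_inner_smul_right, hyy, haa, hbb, hab, hba, hya, hyb, hay, hby]
    linear_combination (-1 : ℝ) * hst
  exact sub_eq_zero.1 (inner_self_eq_zero.1 h1)

theorem no_motion (ι : E3 →ₗᵢ[ℝ] E5) (m : ℝ → Fin 10 → E5)
    (h0 : m 0 = fun i => ι (pp i)) (h1 : m 1 = fun i => ι (qq i))
    (hc : ContinuousOn m (Set.Icc 0 1))
    (hn : ∀ t ∈ Set.Icc (0:ℝ) 1, ∀ i, ‖m t i‖ = 1)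
    (hm : ∀ i j, MonotoneOn (fun t => dist (m t i) (m t j)) (Set.Icc 0 1) ∨
             AntitoneOn (fun t => dist (m t i) (m t j)) (Set.Icc 0 1)) : False := by
  have z0 : (0:ℝ) ∈ Set.Icc (0:ℝ) 1 := ⟨le_rfl, zero_le_one⟩
  have z1 : (1:ℝ) ∈ Set.Icc (0:ℝ) 1 := ⟨zero_le_one, le_rfl⟩
  have i0 : ∀ i j, ⟪m 0 i, m 0 j⟫_ℝ = ⟪pp i, pp j⟫_ℝ := by
    intro i j
    rw [h0]
    exact ι.inner_map_map _ _
  have i1 : ∀ i j, ⟪m 1 i, m 1 j⟫_ℝ = ⟪qq i, qq j⟫_ℝ := by
    intro i j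
    rw [h1]
    exact ι.inner_map_map _ _
  -- pairs with equal inner products at both ends are rigid
  have rigid : ∀ t ∈ Set.Icc (0:ℝ) 1, ∀ i j, ∀ c : ℝ, ⟪pp i, pp j⟫_ℝ = c → ⟪qq i, qq j⟫_ℝ = c →
      ⟪m t i, m t j⟫_ℝ = c := by
    intro t ht i j c hp hq
    have e0 := inner_of_dist _ _ (hn 0 z0 i) (hn 0 z0 j)
    have e1 := inner_of_dist _ _ (hn 1 z1 i) (hn 1 z1 j)
    have et := inner_of_dist _ _ (hn t ht i) (hn t ht j)
    rw [i0, hp] at e0
    rw [i1, hq] at e1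
    have d0 : 0 ≤ dist (m 0 i) (m 0 j) := dist_nonneg
    have d1 : 0 ≤ dist (m 1 i) (m 1 j) := dist_nonneg
    have e01 : dist (m 0 i) (m 0 j) = dist (m 1 i) (m 1 j) := by
      have : dist (m 0 i) (m 0 j) ^ 2 = dist (m 1 i) (m 1 j) ^ 2 := by linarith
      exact (pow_left_inj₀ d0 d1 two_ne_zero).1 this
    have et0 : dist (m t i) (m t j) = dist (m 0 i) (m 0 j) := by
      rcases hm i j with h | h
      · have a1 := h z0 ht ht.1
        have a2 := h ht z1 ht.2
        simp only at a1 a2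
        linarith
      · have a1 := h z0 ht ht.1
        have a2 := h ht z1 ht.2
        simp only at a1 a2
        linarith
    rw [et, et0, ← e0]
  -- a time at which the first pair is orthogonal
  have hg : ContinuousOn (fun t => ⟪m t 0, m t 3⟫_ℝ) (Set.Icc 0 1) :=
    ContinuousOn.inner (𝕜 := ℝ) ((continuous_apply 0).comp_continuousOn hc)
      ((continuous_apply 3).comp_continuousOn hc)
  have g0 : ⟪m 0 0, m 0 3⟫_ℝ = 1 := by rw [i0, inner3]; simp [pp]
  have g1 : ⟪m 1 0, m 1 3⟫_ℝ = -1 := by rw [i1, inner3]; simp [qq]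
  obtain ⟨t, ht, hgt⟩ : (0:ℝ) ∈ (fun t => ⟪m t 0, m t 3⟫_ℝ) '' Set.Icc 0 1 := by
    apply intermediate_value_Icc' zero_le_one hg
    simp only [g0, g1]
    constructor <;> norm_num
  simp only at hgt
  have R := rigid t ht
  have N := hn t ht
  have r01 := R 0 1 0 (by rw [inner3]; simp [pp]) (by rw [inner3]; simp [qq])
  have r02 := R 0 2 0 (by rw [inner3]; simp [pp]) (by rw [inner3]; simp [qq])
  have r12 := R 1 2 0 (by rw [inner3]; simp [pp]) (by rw [inner3]; simp [qq])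
  have r34 := R 3 4 0 (by rw [inner3]; simp [pp]) (by rw [inner3]; simp [qq])
  have r35 := R 3 5 0 (by rw [inner3]; simp [pp]) (by rw [inner3]; simp [qq])
  have r45 := R 4 5 0 (by rw [inner3]; simp [pp]) (by rw [inner3]; simp [qq])
  have r04 := R 0 4 0 (by rw [inner3]; simp [pp]) (by rw [inner3]; simp [qq])
  have r05 := R 0 5 0 (by rw [inner3]; simp [pp]) (by rw [inner3]; simp [qq])
  have r13 := R 1 3 0 (by rw [inner3]; simp [pp]) (by rw [inner3]; simp [qq])
  have r15 := R 1 5 0 (by rw [inner3]; simp [pp]) (by rw [inner3]; simp [qq])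
  have r23 := R 2 3 0 (by rw [inner3]; simp [pp]) (by rw [inner3]; simp [qq])
  have r24 := R 2 4 0 (by rw [inner3]; simp [pp]) (by rw [inner3]; simp [qq])
  have r60 := R 6 0 (3/5) (by rw [inner3]; simp [pp]) (by rw [inner3]; simp [qq])
  have r61 := R 6 1 (4/5) (by rw [inner3]; simp [pp]) (by rw [inner3]; simp [qq])
  have r73 := R 7 3 (4/5) (by rw [inner3]; simp [pp]) (by rw [inner3]; simp [qq]; norm_num)
  have r74 := R 7 4 (-3/5) (by rw [inner3]; simp [pp]) (by rw [inner3]; simp [qq]; norm_num)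
  have r80 := R 8 0 (3/5) (by rw [inner3]; simp [pp]) (by rw [inner3]; simp [qq])
  have r82 := R 8 2 (4/5) (by rw [inner3]; simp [pp]) (by rw [inner3]; simp [qq])
  have r93 := R 9 3 (4/5) (by rw [inner3]; simp [pp]) (by rw [inner3]; simp [qq]; norm_num)
  have r95 := R 9 5 (-3/5) (by rw [inner3]; simp [pp]) (by rw [inner3]; simp [qq]; norm_num)
  have r67 := R 6 7 0 (by rw [inner3]; simp [pp]; norm_num) (by rw [inner3]; simp [qq]; norm_num)
  have r89 := R 8 9 0 (by rw [inner3]; simp [pp]; norm_num) (by rw [inner3]; simp [qq]; norm_num)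
  have e6 := comb_eq _ _ _ _ _ (N 6) (N 0) (N 1) r01 r60 r61 (by norm_num)
  have e7 := comb_eq _ _ _ _ _ (N 7) (N 3) (N 4) r34 r73 r74 (by norm_num)
  have e8 := comb_eq _ _ _ _ _ (N 8) (N 0) (N 2) r02 r80 r82 (by norm_num)
  have e9 := comb_eq _ _ _ _ _ (N 9) (N 3) (N 5) r35 r93 r95 (by norm_num)
  have r14 : ⟪m t 1, m t 4⟫_ℝ = 0 := by
    rw [e6, e7] at r67
    simp only [inner_add_left, inner_add_right, real_inner_smul_left, real_inner_smul_right,
      hgt, r04, r13] at r67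
    linarith
  have r25 : ⟪m t 2, m t 5⟫_ℝ = 0 := by
    rw [e8, e9] at r89
    simp only [inner_add_left, inner_add_right, real_inner_smul_left, real_inner_smul_right,
      hgt, r05, r23] at r89
    linarith
  have sym : ∀ i j : Fin 10, ⟪m t i, m t j⟫_ℝ = 0 → ⟪m t j, m t i⟫_ℝ = 0 := by
    intro i j h
    rw [real_inner_comm]
    exact h
  have hon : Orthonormal ℝ (![m t 0, m t 1, m t 2, m t 3, m t 4, m t 5] : Fin 6 → E5) := by
    constructor
    · intro i
      fin_cases i <;> exact N _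
    · intro i j hij
      fin_cases i <;> fin_cases j <;>
        first
          | exact absurd rfl hij
          | assumption
          | (apply sym; assumption)
  have hle := hon.linearIndependent.fintype_card_le_finrank
  simp at hle

end Pool.Agent.H184Z.Sph
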